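import Pool.Agent.Lib.helper3.SRW

namespace Pool.Agent.H.MP_868dd6_pr

open Finset Filter Pool.Agent.Lib.helper3.SRW
open scoped ENNReal

abbrev T := {p : ℕ × ℕ // p.2 ≤ p.1 + 1}

abbrev V := T × ℕ

def rel (m h : V) : Prop := m.1.1.2 ≠ 0 ∧ h.1.1.2 = 0 ∧
  ((h.1.1.1 = m.1.1.1 ∧ h.2 = m.2) ∨ (h.1.1.1 = m.1.1.1 + 1 ∧ h.2 = m.2 / 2))

def G : SimpleGraph V where
  Adj x y := rel x y ∨ rel y x
  symm := ⟨fun _ _ => Or.symm⟩
  loopless := ⟨fun x h => by simp [rel] at h⟩

def hb (k j : ℕ) : V := (⟨(k, 0), by simp⟩, j)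

def md (k t j : ℕ) : V := (⟨(k, min t k + 1), by simp⟩, j)

lemma ext {v w : V} (h : v.1.1.1 = w.1.1.1 ∧ v.1.1.2 = w.1.1.2 ∧ v.2 = w.2) : v = w :=
  Prod.ext (Subtype.ext (Prod.ext h.1 h.2.1)) h.2.2

lemma deg (v : V) : (G.neighborSet v).encard ≤ (12 * (v.1.1.1 + 3) : ℕ) := by
  refine (Set.encard_le_encard_of_injOn (f := fun w : V => (w.1.1, w.2)) (t := (((Icc (v.1.1.1 - 1) (v.1.1.1 + 1)) ×ˢ range (v.1.1.1 + 3)) ×ˢ
    ({v.2, v.2 / 2, 2 * v.2, 2 * v.2 + 1} : Finset ℕ) : Finset _)) (fun w hw => ?_)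
    fun a _ b _ h => ?_).trans ?_
  · have := w.1.2
    simp only [G, rel, SimpleGraph.mem_neighborSet] at hw
    simp only [mem_coe, mem_product, mem_Icc, mem_range, mem_insert, mem_singleton]
    omega
  · exact Prod.ext (Subtype.ext (Prod.ext_iff.mp h).1) (Prod.ext_iff.mp h).2
  · rw [Set.encard_coe_eq_coe_finsetCard, card_product, card_product, Nat.card_Icc, card_range,
      Nat.cast_le]
    exact (Nat.mul_le_mul (Nat.mul_le_mul_right _ (show _ ≤ 3 by omega)) card_le_four).trans_eq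
      (by ring)

lemma fin (v : V) : (G.neighborSet v).Finite := Set.finite_of_encard_le_coe (deg v)

lemma up (n : ℕ) : ∀ k j, G.Reachable (hb k j) (hb (k + n) (j / 2 ^ n)) := by
  induction n with
  | zero => simp
  | succ n ih =>
    intro k j
    have h1 : G.Adj (hb k j) (md k 0 j) := Or.inr (by simp [rel, hb, md])
    have h2 : G.Adj (md k 0 j) (hb (k + 1) (j / 2)) := Or.inl (by simp [rel, hb, md])
    have := ih (k + 1) (j / 2)
    rw [Nat.div_div_eq_div_mul, ← pow_succ', add_right_comm] at this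
    exact h1.reachable.trans (h2.reachable.trans this)

lemma conn : G.Connected := by
  have h : ∀ k j, G.Reachable (hb k j) (hb 0 0) := fun k j => by
    have h1 := up j k j
    have h2 := up (k + j) 0 0
    rw [Nat.div_eq_of_lt Nat.lt_two_pow_self] at h1
    rw [zero_add, Nat.zero_div] at h2
    exact h1.trans h2.symm
  refine (SimpleGraph.connected_iff_exists_forall_reachable _).mpr ⟨hb 0 0, fun v => .symm ?_⟩
  by_cases k : v.1.1.2 = 0
  · exact (show hb v.1.1.1 v.2 = v from ext ⟨rfl, k.symm, rfl⟩) ▸ h _ _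
  · exact (show G.Adj v (hb v.1.1.1 v.2) from Or.inl (by simp [rel, hb, k])).reachable.trans (h _ _)

def act (c : ℕ) (v : V) : V := (v.1, v.2 ^^^ c / 2 ^ v.1.1.1)

lemma act_act (c : ℕ) : Function.Involutive (act c) := fun v => by simp [act]

lemma act_rel (c : ℕ) {v w : V} (h : rel v w) : rel (act c v) (act c w) := by
  obtain ⟨h1, h2, ⟨h3, h4⟩ | ⟨h3, h4⟩⟩ := h
  · exact ⟨h1, h2, Or.inl ⟨h3, by simp [act, h3, h4]⟩⟩
  · exact ⟨h1, h2, Or.inr ⟨h3, by
      simp [act, h3, h4, Nat.xor_div_two, Nat.div_div_eq_div_mul, pow_succ]⟩⟩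

def aut (c : ℕ) : G ≃g G where
  toEquiv := (act_act c).toPerm
  map_rel_iff' {a b} := ⟨fun h => by
    have := Or.imp (act_rel c) (act_rel c) h
    simpa [act_act c a, act_act c b, G] using this, Or.imp (act_rel c) (act_rel c)⟩

lemma tsum_div (k : ℕ) (F : ℕ → ℝ≥0∞) : ∑' j, F j = 2⁻¹ ^ k * ∑' c, F (c / 2 ^ k) := by
  have := (Nat.divModEquiv (2 ^ k)).tsum_eq fun p => F p.1
  simp only [Nat.divModEquiv_apply, ENNReal.tsum_prod', tsum_fintype, sum_const, card_univ,
    Fintype.card_fin, nsmul_eq_mul, ENNReal.tsum_mul_left] at this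
  rw [this, ← mul_assoc, Nat.cast_pow, ← mul_pow, Nat.cast_ofNat,
    ENNReal.inv_mul_cancel (by simp) (by simp)]
  simp

noncomputable def wt (v : V) : ℝ≥0∞ := if v.2 = 0 then 2⁻¹ ^ v.1.1.1 / 6 else 0

lemma tsum_wt (F : V → ℝ≥0∞) : ∑' v, wt v * F v = ∑' τ : T, 2⁻¹ ^ τ.1.1 / 6 * F (τ, 0) := by
  simp [ENNReal.tsum_prod', wt]

lemma tsum_T (F : ℕ → ℝ≥0∞) : ∑' τ : T, F τ.1.1 = ∑' k : ℕ, (k + 2 : ℕ) * F k := by
  rw [show ∑' τ : T, F τ.1.1 = _ from
    tsum_subtype {p : ℕ × ℕ | p.2 ≤ p.1 + 1} fun p => F p.1, ENNReal.tsum_prod']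
  refine tsum_congr fun k => (tsum_eq_sum (s := range (k + 2)) fun t ht =>
    Set.indicator_of_notMem (by simp at ht ⊢; omega) _).trans ?_
  refine (sum_congr rfl (g := fun _ => F k) fun t ht => ?_).trans (by simp)
  exact Set.indicator_of_mem (by simp at ht ⊢; omega) _

lemma mtp (f : V → V → ℝ≥0∞) (h : ∀ (φ : G ≃g G) x y, f (φ x) (φ y) = f x y) :
    ∑' x, wt x * ∑' y, f x y = ∑' x, wt x * ∑' y, f y x := by
  rw [tsum_wt, tsum_wt]
  simp only [ENNReal.tsum_prod']
  rw [tsum_congr fun τ => congrArg _ (tsum_congr fun σ : T => tsum_div σ.1.1 _),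
    tsum_congr fun τ => congrArg (2⁻¹ ^ τ.1.1 / 6 * ·)
      (tsum_congr fun σ : T => tsum_div σ.1.1 fun j => f (σ, j) (τ, 0))]
  simp only [← ENNReal.tsum_mul_left]
  rw [ENNReal.tsum_comm]
  refine tsum_congr fun τ => tsum_congr fun σ => tsum_congr fun c => ?_
  rw [← h (aut c)]
  simp only [aut, div_eq_mul_inv]
  simp [act]
  ring

lemma wt_sum : ∑' v, wt v = 1 := by
  have h1 := (hasSum_coe_mul_geometric_of_norm_lt_one (r := (1 / 2 : ℝ)) (by norm_num)).add
    (hasSum_geometric_two.mul_left 2)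
  have h2 := tsum_wt fun _ => 1
  simp only [mul_one] at h2
  rw [h2, tsum_T fun k => 2⁻¹ ^ k / 6]
  have := ENNReal.ofReal_tsum_of_nonneg (fun _ => by positivity) (h1.div_const 6).summable
  rw [(h1.div_const 6).tsum_eq] at this
  norm_num at this
  rw [this]
  refine tsum_congr fun k => ?_
  rw [← add_mul, mul_div_assoc, ENNReal.ofReal_mul (by positivity), ENNReal.ofReal_div_of_pos
    (by norm_num), ENNReal.ofReal_pow (by norm_num), ENNReal.ofReal_add (by positivity) (by norm_num)]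
  simp [ENNReal.ofReal_inv_of_pos]

lemma tail : ∃ C c : ℝ, 0 < C ∧ 0 < c ∧ ∀ n : ℕ,
    ∑' v, wt v * (if n ≤ (G.neighborSet v).ncard then 1 else 0) ≤
      ENNReal.ofReal (C * Real.exp (-c * n)) := by
  have h1 := (hasSum_coe_mul_geometric_of_norm_lt_one (r := (2 / 3 : ℝ)) (by norm_num)).add
    ((hasSum_geometric_of_lt_one (r := (2 / 3 : ℝ)) (by norm_num) (by norm_num)).mul_left 2)
  have hc := Real.log_pos (show 1 < (4 / 3 : ℝ) by norm_num)
  refine ⟨12, Real.log (4 / 3) / 12, by norm_num, by positivity, fun n => ?_⟩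
  have h2 := h1.mul_right (Real.exp (-(Real.log (4 / 3) / 12) * n))
  have := ENNReal.ofReal_tsum_of_nonneg (fun _ => by positivity) h2.summable
  rw [h2.tsum_eq] at this
  norm_num at this ⊢
  rw [this]
  refine (ENNReal.tsum_le_tsum (g := fun v => wt v * ENNReal.ofReal ((4 / 3) ^ (v.1.1.1 + 3) *
    Real.exp (-(Real.log (4 / 3) / 12 * n)))) fun v => ?_).trans ?_
  · split_ifs with h
    · refine le_mul_of_one_le_right' (ENNReal.one_le_ofReal.mpr ?_)
      have h3 := deg v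
      rw [← (fin v).cast_ncard_eq, Nat.cast_le] at h3
      have h4 : (n : ℝ) ≤ 12 * (v.1.1.1 + 3 : ℕ) := by exact_mod_cast h.trans h3
      rw [← Real.exp_log (show 0 < (4 / 3 : ℝ) ^ _ by positivity), ← Real.exp_add, Real.log_pow]
      exact Real.one_le_exp (by nlinarith)
    · simp
  rw [tsum_wt, tsum_T fun k => 2⁻¹ ^ k / 6 * ENNReal.ofReal ((4 / 3) ^ (k + 3) *
    Real.exp (-(Real.log (4 / 3) / 12 * n)))]
  refine ENNReal.tsum_le_tsum fun k => ?_
  rw [show (2⁻¹ ^ k / 6 : ℝ≥0∞) = ENNReal.ofReal ((1 / 2) ^ k / 6) by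
    rw [ENNReal.ofReal_div_of_pos (by norm_num), ENNReal.ofReal_pow (by norm_num)]
    simp [ENNReal.ofReal_inv_of_pos], ← ENNReal.ofReal_natCast,
    ← ENNReal.ofReal_mul (by positivity), ← ENNReal.ofReal_mul (by positivity)]
  refine ENNReal.ofReal_le_ofReal ?_
  rw [show (2 / 3 : ℝ) = 1 / 2 * (4 / 3) by norm_num, mul_pow, pow_add]
  have : 0 ≤ ((k : ℝ) + 2) * ((1 / 2) ^ k * (4 / 3) ^ k) *
    Real.exp (-(Real.log (4 / 3) / 12 * n)) := by positivity
  push_cast
  linarith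

def r (v : V) : ℕ := if v.1.1.2 = 0 then v.1.1.1 + v.2.size else v.1.1.1 + 1 + (v.2 / 2).size

lemma sz {j : ℕ} (h : j ≠ 0) : j.size = (j / 2).size + 1 := by
  have := Nat.size_bit (b := j.bodd) (n := j.div2) (by rwa [Nat.bit_bodd_div2])
  rwa [Nat.bit_bodd_div2, Nat.div2_val] at this

lemma small (x : V) : ∀ ε > 0, ∃ (f : V → ℝ) (s : Finset (V × V)), f.support.Finite ∧ f x = 1 ∧
    (∀ v w, G.Adj v w → f v ≠ f w → (v, w) ∈ s) ∧ D s f f ≤ ε := by
  intro ε hε
  obtain ⟨N, h1, h2⟩ := ((Real.tendsto_sum_range_one_div_nat_succ_atTop.eventually_ge_atTop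
    (2 * (r x + 1) / ε)).and (Real.tendsto_sum_range_one_div_nat_succ_atTop.eventually_gt_atTop
      0)).exists
  set W := ∑ i ∈ range N, 1 / (i + 1 : ℝ) with hW
  let F : ℕ → ℝ := fun n => (∑ i ∈ range N, if n ≤ r x + i then 1 / (i + 1 : ℝ) else 0) / W
  have hF : ∀ n, F n - F (n + 1) =
      (∑ i ∈ range N, if n = r x + i then 1 / (i + 1 : ℝ) else 0) / W := fun n => by
    simp only [F]
    rw [← sub_div, ← sum_sub_distrib]
    congr 2
    ext i
    split_ifs <;> first | omega | simp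
  let e : Bool × (Σ _ : ℕ, ℕ) → V × V := fun p => if p.1 then
    (md (r x + p.2.1) p.2.2 0, hb (r x + p.2.1) 0) else (hb (r x + p.2.1) 0, md (r x + p.2.1) p.2.2 0)
  have key : ∀ v w, rel v w → F (r v) ≠ F (r w) → ∃ i < N, ∃ t < r x + i + 1,
      v = md (r x + i) t 0 ∧ w = hb (r x + i) 0 := by
    rintro v w ⟨k1, k2, ⟨k3, k4⟩ | ⟨k3, k4⟩⟩ k
    · by_cases k5 : v.2 = 0
      · simp only [r, k1, k2, k3, k4, k5, if_true, if_false, Nat.zero_div, Nat.size_zero,
          add_zero] at k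
        obtain ⟨i, hi, h⟩ := exists_ne_zero_of_sum_ne_zero
          (div_ne_zero_iff.mp (hF _ ▸ sub_ne_zero.mpr k.symm)).1
        have := v.1.2
        have h := (ite_ne_right_iff.mp h).1
        exact ⟨i, mem_range.mp hi, v.1.1.2 - 1, by omega, ext (by simp only [md]; omega),
          ext (by simp only [hb]; omega)⟩
      · simp [r, k1, k2, k3, k4, sz k5, add_assoc, add_comm 1] at k
    · simp [r, k1, k2, k3, k4] at k
  refine ⟨fun v => F (r v), (univ ×ˢ (range N).sigma fun i => range (r x + i + 1)).image e,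
    ?_, ?_, fun v w h k => ?_, (sum_image_le_of_nonneg fun _ _ => mul_self_nonneg _).trans ?_⟩
  · refine Set.Finite.of_finite_image (f := fun w : V => (w.1.1, w.2)) ((Set.finite_Iic
      ((r x + N, r x + N + 1), 2 ^ (r x + N))).subset ?_) fun a _ b _ h =>
        Prod.ext (Subtype.ext (Prod.ext_iff.mp h).1) (Prod.ext_iff.mp h).2
    rintro _ ⟨v, hv, rfl⟩
    obtain ⟨i, hi, h⟩ := exists_ne_zero_of_sum_ne_zero (div_ne_zero_iff.mp hv).1
    have h := (ite_ne_right_iff.mp h).1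
    have h3 := v.1.2
    have h4 : v.2.size ≤ r v ∧ v.1.1.1 ≤ r v := by
      by_cases k5 : v.2 = 0
      · simp only [r, k5]
        split_ifs <;> simp <;> omega
      · simp only [r, sz k5]
        split_ifs <;> omega
    have := Nat.size_le.mp (show v.2.size ≤ r x + N by simp at hi; omega)
    simp only [Set.mem_Iic, Prod.le_def, mem_range] at hi ⊢
    omega
  · simp only [F, Nat.le_add_right, if_true]
    exact div_self h2.ne'
  · rcases h with h | h
    · obtain ⟨i, hi, t, ht, rfl, rfl⟩ := key _ _ h k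
      exact mem_image.mpr ⟨(true, ⟨i, t⟩), by simp [hi, ht], rfl⟩
    · obtain ⟨i, hi, t, ht, rfl, rfl⟩ := key _ _ h (Ne.symm k)
      exact mem_image.mpr ⟨(false, ⟨i, t⟩), by simp [hi, ht], rfl⟩
  · rw [sum_congr rfl (g := fun p => (1 / (p.2.1 + 1 : ℝ) / W) ^ 2) fun p hp => by
      have h := hF (r x + p.2.1)
      simp only [mem_product, mem_sigma] at hp
      simp only [add_right_inj, sum_ite_eq, hp.2.1, if_true] at h
      rw [← h]
      obtain ⟨_ | _, i, t⟩ := p <;> simp [e, r, md, hb] <;> ring, sum_product]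
    simp only [sum_sigma, sum_const, card_range, card_univ, Fintype.card_bool, nsmul_eq_mul]
    refine (mul_le_mul_of_nonneg_left (sum_le_sum (g := fun i : ℕ => (r x + 1) / W ^ 2 * (1 / (i + 1)))
      fun i _ => ?_) (by simp)).trans ?_
    · push_cast
      field_simp
      nlinarith [mul_nonneg (r x).cast_nonneg i.cast_nonneg (α := ℝ)]
    · rw [← mul_sum, ← hW]
      rw [div_le_iff₀ hε] at h1
      field_simp
      push_cast
      linarith

lemma large (f : V → ℝ) (hf : f.support.Finite) (h1 : f (md 0 0 0) = 1) :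
    ∃ s : Finset (V × V), (∀ p ∈ s, p.1 ≠ p.2 ∧ ∃ z, G.Adj p.1 z ∧ G.Adj z p.2) ∧ 1 ≤ D s f f := by
  obtain ⟨K, hK⟩ := (hf.image fun v => v.1.1.1).bddAbove
  refine ⟨((range (K + 1)).sigma fun k => range (k + 1) ×ˢ range (k + 2)).image fun p =>
    (md p.1 p.2.1 0, md (p.1 + 1) p.2.2 0), fun p hp => ?_, ?_⟩
  · obtain ⟨p, -, rfl⟩ := mem_image.mp hp
    exact ⟨by simp [md], hb (p.1 + 1) 0, Or.inl (by simp [rel, md, hb]), Or.inr (by simp [rel, md, hb])⟩
  rw [D, sum_image, sum_sigma]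
  swap
  · rintro ⟨k, a, b⟩ h ⟨k', a', b'⟩ h' e
    simp [md] at h h' e ⊢
    obtain rfl : k = k' := by omega
    simp
    omega
  have h : ∀ n : ℕ, 1 + 1 / (n + 1 : ℝ) - 2 * (∑ a ∈ range (n + 1), f (md n a 0)) / (n + 1) ≤
      ∑ k ∈ range n, ∑ p ∈ range (k + 1) ×ˢ range (k + 2),
        (f (md k p.1 0) - f (md (k + 1) p.2 0)) * (f (md k p.1 0) - f (md (k + 1) p.2 0)) := fun n => by
    induction n with
    | zero => simp [h1]; norm_num
    | succ n ih =>
      rw [sum_range_succ (n := n)]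
      refine le_trans ?_ (add_le_add ih (sum_le_sum (f := fun p =>
        2 * (1 / ((n + 1) * (n + 2))) * (f (md n p.1 0) - f (md (n + 1) p.2 0)) -
          (1 / ((n + 1) * (n + 2))) ^ 2) fun p _ => by
        nlinarith [sq_nonneg (f (md n p.1 0) - f (md (n + 1) p.2 0) - 1 / ((n + 1) * (n + 2)))]))
      simp only [sum_product, sum_sub_distrib, ← mul_sum, sum_const, card_range, nsmul_eq_mul,
        card_product]
      push_cast
      apply le_of_eq
      field_simp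
      ring
  refine le_trans ?_ (h (K + 1))
  rw [sum_eq_zero fun a _ => by_contra fun e => by simpa [md] using hK ⟨_, e, rfl⟩]
  simp
  positivity

end Pool.Agent.H.MP_868dd6_pr
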